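import Pool.Agent.Lib.MP_1a91b9_nuT.DB.El
import Pool.Agent.Lib.MP_1a91b9_nuT.DB.Od
import Pool.Agent.Lib.MP_1a91b9_nuG.Ram

/-!
# Theorem D, tower step (stream DS): definitions
-/

set_option autoImplicit false

namespace Pool.Agent.Lib.MP_1a91b9_nuT.DS

variable [CD]

open NumberField IsDedekindDomain WeierstrassCurve DB

universe u

noncomputable section

/-- `ℓ` is unramified in `F` -/
def UnrL (ℓ : ℕ) (F : Type u) [Field F] [NumberField F] : Prop :=
  ∀ v : HeightOneSpectrum (𝓞 F), v.valuation F (ℓ : F) < 1 → od v (ℓ : F) = 1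

/-- the inclusion of unit groups -/
def inU (N N' : Type u) [Field N] [Field N'] [Algebra N N'] : Nˣ →* N'ˣ :=
  Units.map (algebraMap N N' : N →* N')

theorem inU_coe {N N' : Type u} [Field N] [Field N'] [Algebra N N'] (y : Nˣ) :
    ((inU N N' y : N'ˣ) : N') = algebraMap N N' (y : N) := rfl

/-- the map on classes induced by a homomorphism of unit groups -/
def elm (ℓ : ℕ) {N N' : Type u} [Field N] [Field N'] (f : Nˣ →* N'ˣ) : El ℓ N →+ El ℓ N' :=
  QuotientAddGroup.map _ _ (MonoidHom.toAdditive f) (by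
    rintro _ ⟨y, rfl⟩
    exact ⟨Additive.ofMul (f (Additive.toMul y)), (map_nsmul (MonoidHom.toAdditive f) ℓ y).symm⟩)

theorem elm_el (ℓ : ℕ) {N N' : Type u} [Field N] [Field N'] (f : Nˣ →* N'ˣ) (y : Nˣ) :
    elm ℓ f (el ℓ y) = el ℓ (f y) := rfl

/-- the norm for a cyclic group -/
def nmg {N N' : Type u} [Field N] [Field N'] [Algebra N N'] (γ : Gal(N'/N)) (ℓ : ℕ) (b : N'ˣ) :
    N'ˣ := ∏ i ∈ Finset.range ℓ, sg (γ ^ i) b

end

end Pool.Agent.Lib.MP_1a91b9_nuT.DS
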