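import Pool.Agent.Lib.MP_1a91b9_nuT.DS.Defs
import Pool.Agent.Lib.MP_1a91b9_nuT.BaseK

/-!
# DS: the places above `ℓ` in the base field and in a step of the tower

`unr_base`: `K` is unramified at the primes `ℓ` which do not divide `CD.bad`. `y ^ 2 = ℓ z` in `𝓞 K` implies `ℓ ∣ y`:
`y = m + n ta`, `ℓ ∣ m ^ 2 - nm n ^ 2`, `ℓ ∣ n (2 m + tr n)`, and `ℓ` does not divide `tr ^ 2 - 4 nm`.
`unr_step`: the multiplicativity of the ramification index.
-/

set_option autoImplicit false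

namespace Pool.Agent.Lib.MP_1a91b9_nuT.DS

variable [CD]

open NumberField IsDedekindDomain WeierstrassCurve DB

universe u

/-- the coordinates of an integer of `k` -/
private theorem toa_coords {k : Type u} [Field k] [NumberField k] [Algebra K k]
    (hk : Function.Bijective (algebraMap K k)) (y : 𝓞 k) :
    ∃ m n : ℤ, (y : k) = m + n * algebraMap K k om := by
  obtain ⟨x, hx⟩ := hk.2 (y : k)
  have h1 : IsIntegral ℤ x := by
    have h2 : IsIntegral ℤ (algebraMap K k x) := by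
      rw [hx]
      exact y.2
    exact (isIntegral_algebraMap_iff hk.1).1 h2
  obtain ⟨m, n, h⟩ := exists_coordsK (⟨x, h1⟩ : 𝓞 K)
  have h' : x = m + n * om := h
  refine ⟨m, n, ?_⟩
  rw [← hx, h', map_add, map_mul, map_intCast, map_intCast]

private theorem toa_ind {a b : ℤ} (h : (a : K) + b * om = 0) : a = 0 ∧ b = 0 := by
  apply lin_zero
  have h1 := congrArg embK h
  rw [map_add, map_mul, map_intCast, map_intCast, map_zero, embK_om] at h1
  exact h1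

/-- an integer whose square is divisible by `ℓ` is divisible by `ℓ` -/
private theorem toa_sq {ℓ : ℕ} (hℓ : ℓ.Prime) (hd : ¬ (ℓ : ℤ) ∣ CD.tr ^ 2 - 4 * CD.nm)
    {k : Type u} [Field k] [NumberField k]
    [Algebra K k] (hk : Function.Bijective (algebraMap K k)) {y z : 𝓞 k}
    (h : y ^ 2 = (ℓ : 𝓞 k) * z) : ∃ t : 𝓞 k, y = (ℓ : 𝓞 k) * t := by
  obtain ⟨m, n, hy⟩ := toa_coords hk y
  obtain ⟨m', n', hz⟩ := toa_coords hk z
  have h1 : (y : k) ^ 2 = (ℓ : k) * z := by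
    have h2 := congrArg (algebraMap (𝓞 k) k) h
    rw [map_pow, map_mul, map_natCast] at h2
    exact h2
  rw [hy, hz] at h1
  have h3 : ((m ^ 2 - CD.nm * n ^ 2 - ℓ * m' : ℤ) : K) +
      ((2 * m * n + CD.tr * n ^ 2 - ℓ * n' : ℤ) : K) * om = 0 := by
    apply hk.1
    rw [map_zero, map_add, map_mul, map_intCast, map_intCast]
    have hq : (algebraMap K k om) ^ 2 = (CD.tr : k) * algebraMap K k om - (CD.nm : k) := by
      have h4 := congrArg (algebraMap K k) om_quad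
      rwa [map_pow, map_sub, map_mul, map_intCast, map_intCast] at h4
    push_cast
    linear_combination h1 - (n : k) ^ 2 * hq
  obtain ⟨h4, h6⟩ := toa_ind h3
  have hp : Prime (ℓ : ℤ) := Nat.prime_iff_prime_int.1 hℓ
  have hn : (ℓ : ℤ) ∣ n * (2 * m + CD.tr * n) := ⟨n', by linear_combination h6⟩
  have hm : (ℓ : ℤ) ∣ m ^ 2 - CD.nm * n ^ 2 := ⟨m', by linear_combination h4⟩
  have hn1 : (ℓ : ℤ) ∣ n := by
    rcases hp.dvd_or_dvd hn with hn1 | hn1
    · exact hn1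
    · have h7 : (ℓ : ℤ) ∣ n ^ 2 * (CD.tr ^ 2 - 4 * CD.nm) := by
        obtain ⟨c, hc⟩ := hn1
        obtain ⟨d, hd⟩ := hm
        refine ⟨4 * d - c * (2 * m - CD.tr * n), ?_⟩
        linear_combination 4 * hd - (2 * m - CD.tr * n) * hc
      exact hp.dvd_of_dvd_pow ((hp.dvd_or_dvd h7).resolve_right hd)
  have hm1 : (ℓ : ℤ) ∣ m := by
    apply hp.dvd_of_dvd_pow (n := 2)
    have h7 : (ℓ : ℤ) ∣ CD.nm * n ^ 2 := Dvd.dvd.mul_left (Dvd.dvd.pow hn1 (by norm_num)) _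
    have h8 := dvd_add hm h7
    rwa [sub_add_cancel] at h8
  obtain ⟨m1, hm1⟩ := hm1
  obtain ⟨n1, hn1⟩ := hn1
  have hoi : IsIntegral ℤ (algebraMap K k om) := by
    have h2 : IsIntegral ℤ om := (ta : 𝓞 K).2
    exact h2.algebraMap
  obtain ⟨o, ho⟩ : ∃ o : 𝓞 k, algebraMap (𝓞 k) k o = algebraMap K k om :=
    ⟨⟨algebraMap K k om, hoi⟩, rfl⟩
  refine ⟨(m1 : 𝓞 k) + n1 * o, ?_⟩
  apply RingOfIntegers.ext
  have e : (((ℓ : 𝓞 k) * ((m1 : 𝓞 k) + n1 * o) : 𝓞 k) : k) =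
      (ℓ : k) * ((m1 : k) + n1 * algebraMap K k om) := by
    change algebraMap (𝓞 k) k _ = _
    rw [map_mul, map_natCast, map_add, map_intCast, map_mul, map_intCast, ho]
  rw [e, hy, hm1, hn1]
  push_cast
  ring

/-- `K` is unramified at the primes which are not bad -/
theorem unr_base {ℓ : ℕ} (hℓ : ℓ.Prime) (hb : ¬ (ℓ : ℤ) ∣ CD.bad) (k : Type u) [Field k] [NumberField k]
    [Algebra K k] (hk : Function.Bijective (algebraMap K k)) : UnrL ℓ k := by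
  intro v hv
  have hd : ¬ (ℓ : ℤ) ∣ CD.tr ^ 2 - 4 * CD.nm := fun h =>
    hb ((Dvd.dvd.mul_left h _).trans CD.bad_dvd)
  have hl0 : (ℓ : k) ≠ 0 := Nat.cast_ne_zero.2 hℓ.ne_zero
  have hl0' : (ℓ : 𝓞 k) ≠ 0 := Nat.cast_ne_zero.2 hℓ.ne_zero
  have h1 : 0 < od v (ℓ : k) := (val_lt_one_iff v hl0).1 hv
  by_contra hne
  have h2 : 2 ≤ od v (ℓ : k) := by omega
  have e0 : algebraMap (𝓞 k) k (ℓ : 𝓞 k) = (ℓ : k) := map_natCast (algebraMap (𝓞 k) k) ℓ
  have h3 : (ℓ : 𝓞 k) ∈ v.asIdeal ^ 2 := by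
    rw [← v.intValuation_le_pow_iff_mem, ← v.valuation_of_algebraMap (K := k)]
    change v.valuation k (algebraMap (𝓞 k) k (ℓ : 𝓞 k)) ≤ _
    rw [e0, val_eq v hl0, WithZero.exp_le_exp]
    push_cast
    omega
  have h4 : v.asIdeal ^ 2 ∣ Ideal.span {(ℓ : 𝓞 k)} := by
    rw [Ideal.dvd_span_singleton]
    exact h3
  obtain ⟨J, hJ⟩ := h4
  have hJ0 : J ≠ 0 := by
    rintro rfl
    rw [mul_zero, Ideal.zero_eq_bot, Ideal.span_singleton_eq_bot] at hJ
    exact hl0' hJ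
  have hle : ¬ v.asIdeal * J ≤ Ideal.span {(ℓ : 𝓞 k)} := by
    intro h6
    have h7 : Ideal.span {(ℓ : 𝓞 k)} ∣ v.asIdeal * J := Ideal.dvd_iff_le.2 h6
    rw [hJ, pow_two, mul_assoc] at h7
    have h8 : v.asIdeal * (v.asIdeal * J) ∣ 1 * (v.asIdeal * J) := by rwa [one_mul]
    have h9 : v.asIdeal ∣ 1 :=
      (mul_dvd_mul_iff_right (mul_ne_zero v.ne_bot hJ0)).1 h8
    have h10 : v.asIdeal = ⊤ := by
      rw [← Ideal.one_eq_top]
      exact le_antisymm (by rw [Ideal.one_eq_top]; exact le_top) (Ideal.dvd_iff_le.1 h9)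
    exact v.isPrime.ne_top h10
  obtain ⟨y, hy1, hy2⟩ := SetLike.not_le_iff_exists.1 hle
  have h6 : y ^ 2 ∈ Ideal.span {(ℓ : 𝓞 k)} := by
    have h7 : y * y ∈ (v.asIdeal * J) * (v.asIdeal * J) := Ideal.mul_mem_mul hy1 hy1
    have e : (v.asIdeal * J) * (v.asIdeal * J) = Ideal.span {(ℓ : 𝓞 k)} * J := by
      rw [hJ, pow_two, mul_mul_mul_comm, mul_assoc (v.asIdeal * v.asIdeal) J J]
    have h8 : Ideal.span {(ℓ : 𝓞 k)} * J ≤ Ideal.span {(ℓ : 𝓞 k)} := Ideal.mul_le_left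
    rw [pow_two]
    rw [e] at h7
    exact h8 h7
  obtain ⟨z, hz⟩ := Ideal.mem_span_singleton.1 h6
  obtain ⟨t, ht⟩ := toa_sq hℓ hd hk hz
  exact hy2 (Ideal.mem_span_singleton.2 ⟨t, ht⟩)

theorem unr_step {ℓ : ℕ} {F F' : Type u} [Field F] [NumberField F] [Field F'] [NumberField F']
    [Algebra F F'] (hu : ∀ v : HeightOneSpectrum (𝓞 F'), v.valuation F' (ℓ : F') < 1 →
      v.asIdeal.ramificationIdx (𝓞 F) = 1) (h : UnrL ℓ F) : UnrL ℓ F' := by
  intro v hv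
  have h1 : (v.under (𝓞 F)).valuation F (ℓ : F) < 1 := by
    rw [← val_map_lt, map_natCast]
    exact hv
  have h2 := od_map (k := F) v (ℓ : F)
  rw [map_natCast, hu v hv, h _ h1, Nat.cast_one, one_mul] at h2
  exact h2

end Pool.Agent.Lib.MP_1a91b9_nuT.DS
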